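import Mathlib

/-!
# The Teichmueller character of a finite field with values in a p-adic field
-/

namespace H93S

open Polynomial

variable {K : Type*} [NormedField K] [IsUltrametricDist K]

/-- The valuation ring. -/
noncomputable abbrev OK (K : Type*) [NormedField K] [IsUltrametricDist K] : ValuationSubring K :=
  (NormedField.valuation (K := K)).valuationSubring

theorem mem_OK {x : K} : x ∈ OK K ↔ ‖x‖ ≤ 1 := by
  rw [Valuation.mem_valuationSubring_iff, NormedField.valuation_apply]
  rw [← NNReal.coe_le_coe]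
  simp

theorem isUnit_OK_iff (x : OK K) : IsUnit x ↔ ‖(x : K)‖ = 1 := by
  constructor
  · rintro ⟨u, rfl⟩
    have h1 : ‖((u : OK K) : K)‖ ≤ 1 := mem_OK.1 (u : OK K).2
    have h2 : ‖(((u⁻¹ : (OK K)ˣ) : OK K) : K)‖ ≤ 1 := mem_OK.1 ((u⁻¹ : (OK K)ˣ) : OK K).2
    have h3 : ((u : OK K) : K) * (((u⁻¹ : (OK K)ˣ) : OK K) : K) = 1 := by
      exact congrArg Subtype.val (Units.mul_inv u)
    have h4 : ‖((u : OK K) : K)‖ * ‖(((u⁻¹ : (OK K)ˣ) : OK K) : K)‖ = 1 := by
      rw [← norm_mul, h3, norm_one]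
    nlinarith [norm_nonneg ((u : OK K) : K), norm_nonneg (((u⁻¹ : (OK K)ˣ) : OK K) : K)]
  · intro h
    have hx : (x : K) ≠ 0 := by
      intro h0
      rw [h0, norm_zero] at h
      exact zero_ne_one h
    have h1 : (x : K)⁻¹ ∈ OK K := by
      rw [mem_OK, norm_inv, h, inv_one]
    refine IsUnit.of_mul_eq_one ⟨(x : K)⁻¹, h1⟩ ?_
    ext
    exact mul_inv_cancel₀ hx

theorem residue_eq_zero_iff (x : OK K) : IsLocalRing.residue (OK K) x = 0 ↔ ‖(x : K)‖ < 1 := by
  rw [IsLocalRing.residue_eq_zero_iff, IsLocalRing.mem_maximalIdeal, mem_nonunits_iff,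
    isUnit_OK_iff]
  have : ‖(x : K)‖ ≤ 1 := mem_OK.1 x.2
  constructor
  · intro h
    exact lt_of_le_of_ne this h
  · intro h h'
    exact absurd h' h.ne

/-- The residue map as a function of elements of norm at most one. -/
noncomputable abbrev kK (K : Type*) [NormedField K] [IsUltrametricDist K] : Type _ :=
  IsLocalRing.ResidueField (OK K)

/-- Distinct roots of unity of order prime to `p` have distinct residues. -/
theorem root_sub_norm {p n : ℕ} [Fact p.Prime] (hp : ‖(p : K)‖ < 1) (hn : ¬ p ∣ n)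
    {x y : K} (hx : x ^ n = 1) (hy : y ^ n = 1) (hxy : ‖x - y‖ < 1) : x = y := by
  by_contra hne
  have hn0 : n ≠ 0 := by
    rintro rfl
    exact hn (dvd_zero p)
  have hnx : ‖x‖ = 1 := by
    have h : ‖x‖ ^ n = 1 := by rw [← norm_pow, hx, norm_one]
    exact (pow_eq_one_iff_of_nonneg (norm_nonneg x) hn0).1 h
  have hny : ‖y‖ = 1 := by
    have h : ‖y‖ ^ n = 1 := by rw [← norm_pow, hy, norm_one]
    exact (pow_eq_one_iff_of_nonneg (norm_nonneg y) hn0).1 h
  have hg : (∑ i ∈ Finset.range n, x ^ i * y ^ (n - 1 - i)) * (x - y) = 0 := by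
    rw [Commute.geom_sum₂_mul (Commute.all x y), hx, hy, sub_self]
  have hs : ∑ i ∈ Finset.range n, x ^ i * y ^ (n - 1 - i) = 0 :=
    (mul_eq_zero.1 hg).resolve_right (sub_ne_zero.2 hne)
  -- each term is congruent to `y ^ (n-1)`
  have hterm : ∀ i ∈ Finset.range n, ‖x ^ i * y ^ (n - 1 - i) - y ^ (n - 1)‖ < 1 := by
    intro i hi
    have hi' : i ≤ n - 1 := Nat.le_pred_of_lt (Finset.mem_range.1 hi)
    have e : x ^ i * y ^ (n - 1 - i) - y ^ (n - 1) = (x ^ i - y ^ i) * y ^ (n - 1 - i) := by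
      rw [sub_mul, ← pow_add, Nat.add_sub_cancel' hi']
    rw [e, norm_mul, norm_pow, hny, one_pow, mul_one]
    have e2 : x ^ i - y ^ i = (∑ j ∈ Finset.range i, x ^ j * y ^ (i - 1 - j)) * (x - y) :=
      (Commute.geom_sum₂_mul (Commute.all x y) i).symm
    rw [e2, norm_mul]
    have h1 : ‖∑ j ∈ Finset.range i, x ^ j * y ^ (i - 1 - j)‖ ≤ 1 := by
      refine IsUltrametricDist.norm_sum_le_of_forall_le_of_nonneg zero_le_one ?_
      intro j _
      rw [norm_mul, norm_pow, norm_pow, hnx, hny, one_pow, one_pow, mul_one]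
    calc _ ≤ 1 * ‖x - y‖ := by gcongr
      _ < 1 := by rw [one_mul]; exact hxy
  have hsum : ‖∑ i ∈ Finset.range n, (x ^ i * y ^ (n - 1 - i) - y ^ (n - 1))‖ < 1 := by
    by_cases h0 : (Finset.range n).Nonempty
    · obtain ⟨i, hi, hle⟩ := IsUltrametricDist.exists_norm_finsetSum_le (Finset.range n)
        (fun i => x ^ i * y ^ (n - 1 - i) - y ^ (n - 1))
      have := hterm i (hi h0)
      exact lt_of_le_of_lt hle this
    · rw [Finset.not_nonempty_iff_eq_empty.1 h0]
      simp
  rw [Finset.sum_sub_distrib, hs, zero_sub, norm_neg, Finset.sum_const, Finset.card_range,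
    nsmul_eq_mul, norm_mul, norm_pow, hny, one_pow, mul_one] at hsum
  -- but `n` is a unit
  have hcop : IsCoprime (n : ℤ) (p : ℤ) := by
    rw [Nat.isCoprime_iff_coprime]
    exact ((Nat.Prime.coprime_iff_not_dvd Fact.out).2 hn).symm
  obtain ⟨a, b, hab⟩ := hcop
  have h1 : (a : K) * (n : K) + (b : K) * (p : K) = 1 := by
    exact_mod_cast congrArg (fun z : ℤ => (z : K)) hab
  have h2 : ‖(a : K) * (n : K) + (b : K) * (p : K)‖ < 1 := by
    refine lt_of_le_of_lt (IsUltrametricDist.norm_add_le_max _ _) (max_lt ?_ ?_)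
    · rw [norm_mul]
      calc _ ≤ 1 * ‖(n : K)‖ := by
            gcongr
            exact IsUltrametricDist.norm_intCast_le_one K a
        _ < 1 := by rw [one_mul]; exact hsum
    · rw [norm_mul]
      calc _ ≤ 1 * ‖(p : K)‖ := by
            gcongr
            exact IsUltrametricDist.norm_intCast_le_one K b
        _ < 1 := by rw [one_mul]; exact hp
  rw [h1, norm_one] at h2
  exact lt_irrefl _ h2

open scoped Classical in
/-- The residue of an element of norm at most one, as a total function. -/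
noncomputable def red (x : K) : kK K :=
  if h : x ∈ OK K then IsLocalRing.residue (OK K) ⟨x, h⟩ else 0

theorem red_of_mem {x : K} (h : ‖x‖ ≤ 1) :
    red x = IsLocalRing.residue (OK K) ⟨x, mem_OK.2 h⟩ := by
  rw [red, dif_pos (mem_OK.2 h)]

theorem red_mul {x y : K} (hx : ‖x‖ ≤ 1) (hy : ‖y‖ ≤ 1) : red (x * y) = red x * red y := by
  have hxy : ‖x * y‖ ≤ 1 := by
    rw [norm_mul]
    exact mul_le_one₀ hx (norm_nonneg y) hy
  rw [red_of_mem hx, red_of_mem hy, red_of_mem hxy, ← map_mul]
  rfl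

theorem red_one : red (1 : K) = 1 := by
  rw [red_of_mem (by rw [norm_one])]
  exact map_one (IsLocalRing.residue (OK K))

theorem red_pow {x : K} (hx : ‖x‖ ≤ 1) (n : ℕ) : red (x ^ n) = red x ^ n := by
  induction n with
  | zero => simp [red_one]
  | succ n ih =>
    have h : ‖x ^ n‖ ≤ 1 := by
      rw [norm_pow]
      exact pow_le_one₀ (norm_nonneg x) hx
    rw [pow_succ, red_mul h hx, ih, pow_succ]

/-- Congruence modulo the maximal ideal in terms of residues. -/
theorem norm_sub_lt_of_red {x y z : K} (hx : ‖x‖ ≤ 1) (hy : ‖y‖ ≤ 1) (hz : ‖z‖ ≤ 1)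
    (h : red x = red y + red z) : ‖x - y - z‖ < 1 := by
  have h1 : IsLocalRing.residue (OK K) (⟨x, mem_OK.2 hx⟩ - ⟨y, mem_OK.2 hy⟩ - ⟨z, mem_OK.2 hz⟩)
      = 0 := by
    rw [map_sub, map_sub, ← red_of_mem hx, ← red_of_mem hy, ← red_of_mem hz, h]
    ring
  exact (residue_eq_zero_iff _).1 h1

theorem norm_sub_lt_of_red_eq {x y : K} (hx : ‖x‖ ≤ 1) (hy : ‖y‖ ≤ 1) (h : red x = red y) :
    ‖x - y‖ < 1 := by
  have h1 : IsLocalRing.residue (OK K) (⟨x, mem_OK.2 hx⟩ - ⟨y, mem_OK.2 hy⟩) = 0 := by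
    rw [map_sub, ← red_of_mem hx, ← red_of_mem hy, h, sub_self]
  exact (residue_eq_zero_iff _).1 h1

theorem kK_cast {p : ℕ} (hp : ‖(p : K)‖ < 1) : ((p : ℕ) : kK K) = 0 := by
  have h : IsLocalRing.residue (OK K) ((p : ℕ) : OK K) = 0 := by
    rw [residue_eq_zero_iff]
    exact_mod_cast hp
  rw [← h]
  simp

/-- Every root of unity of order prime to `p` in the residue field lifts. -/
theorem exists_lift [IsAlgClosed K] {p n : ℕ} [Fact p.Prime] (hp : ‖(p : K)‖ < 1) (hn : ¬ p ∣ n)
    (hnK : (n : K) ≠ 0) {c : kK K} (hc : c ^ n = 1) : ∃ z : K, z ^ n = 1 ∧ red z = c := by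
  classical
  have hn0 : 0 < n := by
    rcases Nat.eq_zero_or_pos n with h | h
    · rw [h] at hn
      exact absurd (dvd_zero p) hn
    · exact h
  have : NeZero (n : K) := ⟨hnK⟩
  have hcardK : (nthRootsFinset n (1 : K)).card = n := by
    obtain ⟨ζ, hζ⟩ := HasEnoughRootsOfUnity.exists_primitiveRoot K n
    exact hζ.card_nthRootsFinset
  have hcardk : (nthRootsFinset n (1 : kK K)).card ≤ n := by
    unfold nthRootsFinset
    exact (Multiset.toFinset_card_le _).trans (card_nthRoots n 1)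
  have hnorm : ∀ z ∈ nthRootsFinset n (1 : K), ‖z‖ ≤ 1 := by
    intro z hz
    have hz' := (mem_nthRootsFinset hn0 (1 : K)).1 hz
    have h : ‖z‖ ^ n = 1 := by rw [← norm_pow, hz', norm_one]
    exact ((pow_eq_one_iff_of_nonneg (norm_nonneg z) hn0.ne').1 h).le
  have hmaps : ∀ z ∈ nthRootsFinset n (1 : K), red z ∈ nthRootsFinset n (1 : kK K) := by
    intro z hz
    rw [mem_nthRootsFinset hn0, ← red_pow (hnorm z hz), (mem_nthRootsFinset hn0 (1 : K)).1 hz,
      red_one]
  have hinj : Set.InjOn (red : K → kK K) (nthRootsFinset n (1 : K)) := by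
    intro x hx y hy hxy
    exact root_sub_norm hp hn ((mem_nthRootsFinset hn0 (1 : K)).1 hx)
      ((mem_nthRootsFinset hn0 (1 : K)).1 hy)
      (norm_sub_lt_of_red_eq (hnorm x hx) (hnorm y hy) hxy)
  have hsurj := Finset.surjOn_of_injOn_of_card_le (red : K → kK K) hmaps hinj
    (by rw [hcardK]; exact hcardk)
  obtain ⟨z, hz, hzc⟩ := hsurj (show c ∈ (nthRootsFinset n (1 : kK K) : Set (kK K)) from
    (mem_nthRootsFinset hn0 (1 : kK K)).2 hc)
  exact ⟨z, (mem_nthRootsFinset hn0 (1 : K)).1 hz, hzc⟩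

/-- **Teichmueller character**, general version: `K` algebraically closed. -/
theorem exists_teich_gen [IsAlgClosed K] [CharZero K] (p f : ℕ) [Fact p.Prime]
    (hp : ‖(p : K)‖ < 1) (hf : 1 ≤ f) {F : Type*} [Field F] [Fintype F] [DecidableEq F]
    (hcard : Fintype.card F = p ^ f) :
    ∃ w : MulChar F K, orderOf w = p ^ f - 1 ∧ ∀ x y, ‖w (x + y) - w x - w y‖ < 1 := by
  classical
  have hpp : p.Prime := Fact.out
  have hq1 : 1 < p ^ f := Nat.one_lt_pow (by omega) hpp.one_lt
  -- characteristics and the embedding of `F` in the residue field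
  have hF : CharP F p := by
    rw [CharP.charP_iff_prime_eq_zero hpp]
    have h : ((p ^ f : ℕ) : F) = 0 := by
      rw [← hcard]
      exact Nat.cast_card_eq_zero F
    rw [Nat.cast_pow] at h
    exact pow_eq_zero_iff (by omega) |>.1 h
  have hk : CharP (kK K) p := by
    rw [CharP.charP_iff_prime_eq_zero hpp]
    exact kK_cast hp
  let _ : Algebra (ZMod p) F := ZMod.algebra F p
  let _ : Algebra (ZMod p) (kK K) := ZMod.algebra (kK K) p
  have hnp : ¬ p ∣ p ^ f - 1 := by
    intro h
    have h1 : p ∣ p ^ f := dvd_pow_self p (by omega)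
    have h2 := (Nat.dvd_sub_iff_right hq1.le h1).1 h
    exact hpp.one_lt.ne' (Nat.dvd_one.1 h2)
  have hnK : ((p ^ f - 1 : ℕ) : K) ≠ 0 := by
    rw [Nat.cast_ne_zero]
    omega
  set n := p ^ f - 1 with hn
  have hn0 : 0 < n := by omega
  have hqn : p ^ f = n + 1 := by omega
  -- the polynomial `X ^ q - X` splits in the residue field
  have hsplit : ((X ^ Fintype.card F - X : (ZMod p)[X]).map (algebraMap (ZMod p) (kK K))).Splits := by
    rw [Polynomial.map_sub, Polynomial.map_pow, map_X, splits_iff_card_roots]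
    have hdeg : (X ^ Fintype.card F - X : (kK K)[X]).natDegree = Fintype.card F :=
      FiniteField.X_pow_card_sub_X_natDegree_eq (kK K) Fintype.one_lt_card
    have hne : (X ^ Fintype.card F - X : (kK K)[X]) ≠ 0 := by
      intro h
      rw [h, natDegree_zero] at hdeg
      have := Fintype.one_lt_card (α := F)
      omega
    refine le_antisymm (card_roots' _) ?_
    rw [hdeg]
    have : NeZero (n : K) := ⟨hnK⟩
    have hcardK : (nthRootsFinset n (1 : K)).card = n := by
      obtain ⟨ζ, hζ⟩ := HasEnoughRootsOfUnity.exists_primitiveRoot K n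
      exact hζ.card_nthRootsFinset
    have hnorm : ∀ z ∈ nthRootsFinset n (1 : K), ‖z‖ ≤ 1 := by
      intro z hz
      have hz' := (mem_nthRootsFinset hn0 (1 : K)).1 hz
      have h : ‖z‖ ^ n = 1 := by rw [← norm_pow, hz', norm_one]
      exact ((pow_eq_one_iff_of_nonneg (norm_nonneg z) hn0.ne').1 h).le
    have hinj : Set.InjOn (red : K → kK K) (nthRootsFinset n (1 : K)) := by
      intro x hx y hy hxy
      exact root_sub_norm hp hnp ((mem_nthRootsFinset hn0 (1 : K)).1 hx)
        ((mem_nthRootsFinset hn0 (1 : K)).1 hy)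
        (norm_sub_lt_of_red_eq (hnorm x hx) (hnorm y hy) hxy)
    have hpow : ∀ z ∈ nthRootsFinset n (1 : K), red z ^ n = 1 := by
      intro z hz
      rw [← red_pow (hnorm z hz), (mem_nthRootsFinset hn0 (1 : K)).1 hz, red_one]
    have h0 : (0 : kK K) ∉ (nthRootsFinset n (1 : K)).image red := by
      intro h
      obtain ⟨z, hz, hz0⟩ := Finset.mem_image.1 h
      have := hpow z hz
      rw [hz0, zero_pow hn0.ne'] at this
      exact zero_ne_one this
    have hc : (insert (0 : kK K) ((nthRootsFinset n (1 : K)).image red)).card = Fintype.card F := by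
      rw [Finset.card_insert_of_notMem h0, Finset.card_image_of_injOn hinj, hcardK, hcard, hqn]
    refine le_trans hc.ge (le_trans (Finset.card_le_card
      (t := (X ^ Fintype.card F - X : (kK K)[X]).roots.toFinset) ?_) (Multiset.toFinset_card_le _))
    intro c hc
    rw [Multiset.mem_toFinset, mem_roots hne, IsRoot.def, eval_sub, eval_pow, eval_X, hcard, hqn]
    rcases Finset.mem_insert.1 hc with rfl | hc
    · simp
    · obtain ⟨z, hz, rfl⟩ := Finset.mem_image.1 hc
      rw [pow_succ, hpow z hz, one_mul, sub_self]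
  let ι : F →+* kK K := (IsSplittingField.lift F (X ^ Fintype.card F - X : (ZMod p)[X])
    hsplit).toRingHom
  -- a generator of the multiplicative group and its lift
  obtain ⟨g, hg⟩ := IsCyclic.exists_generator (α := Fˣ)
  have hcu : Fintype.card Fˣ = n := by rw [Fintype.card_units, hcard]
  have hgn : (g : F) ^ n = 1 := by
    rw [← hcu, ← Units.val_pow_eq_pow_val, pow_card_eq_one, Units.val_one]
  obtain ⟨z, hz, hzg⟩ := exists_lift hp hnp hnK (c := ι (g : F)) (by rw [← map_pow, hgn, map_one])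
  have hzu : IsUnit z := IsUnit.of_pow_eq_one hz hn0.ne'
  have hζ : hzu.unit ∈ rootsOfUnity (Fintype.card Fˣ) K := by
    rw [mem_rootsOfUnity]
    ext
    rw [Units.val_pow_eq_pow_val, IsUnit.unit_spec, hcu, hz, Units.val_one]
  let w : MulChar F K := MulChar.ofRootOfUnity hζ hg
  have hwg : w (g : F) = z := by
    rw [MulChar.ofRootOfUnity_spec hζ hg, IsUnit.unit_spec]
  have hznorm : ‖z‖ ≤ 1 := by
    have h : ‖z‖ ^ n = 1 := by rw [← norm_pow, hz, norm_one]
    exact ((pow_eq_one_iff_of_nonneg (norm_nonneg z) hn0.ne').1 h).le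
  have hwnorm : ∀ x : F, ‖w x‖ ≤ 1 ∧ red (w x) = ι x := by
    intro x
    by_cases hx : x = 0
    · rw [hx, MulChar.map_zero, norm_zero, map_zero]
      refine ⟨zero_le_one, ?_⟩
      rw [red_of_mem (by rw [norm_zero]; exact zero_le_one)]
      exact map_zero _
    · obtain ⟨i, hi⟩ := (Submonoid.mem_powers_iff _ _).1
        ((mem_powers_iff_mem_zpowers).2 (hg (Units.mk0 x hx)))
      have hxi : x = (g : F) ^ i := by
        rw [← Units.val_pow_eq_pow_val, hi, Units.val_mk0]
      rw [hxi, map_pow, hwg]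
      refine ⟨?_, ?_⟩
      · rw [norm_pow]
        exact pow_le_one₀ (norm_nonneg z) hznorm
      · rw [red_pow hznorm, hzg, map_pow]
  have hinj : ∀ x y : F, w x = w y → x = y := by
    intro x y hxy
    apply ι.injective
    rw [← (hwnorm x).2, ← (hwnorm y).2, hxy]
  refine ⟨w, ?_, ?_⟩
  · apply Nat.dvd_antisymm
    · have := w.orderOf_dvd_card_sub_one
      rwa [hcard, ← hn] at this
    · have h1 : w (g : F) ^ orderOf w = 1 := by
        have h2 : (w ^ orderOf w) (g : F) = 1 := by
          rw [pow_orderOf_eq_one, MulChar.one_apply_coe]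
        rwa [MulChar.pow_apply_coe] at h2
      have h3 : (g : F) ^ orderOf w = 1 := by
        apply hinj
        rw [map_pow, h1, map_one]
      have h4 : g ^ orderOf w = 1 := by
        ext
        rw [Units.val_pow_eq_pow_val, h3, Units.val_one]
      rw [← hcu, ← Nat.card_eq_fintype_card, ← orderOf_eq_card_of_forall_mem_zpowers hg]
      exact orderOf_dvd_of_pow_eq_one h4
  · intro x y
    exact norm_sub_lt_of_red (hwnorm _).1 (hwnorm _).1 (hwnorm _).1
      (by rw [(hwnorm _).2, (hwnorm _).2, (hwnorm _).2, map_add])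

/-- **Teichmueller character** with values in the algebraic closure of `ℚ_[p]`. -/
theorem exists_teich (p f : ℕ) [Fact p.Prime] (hf : 1 ≤ f) {F : Type*} [Field F] [Fintype F]
    [DecidableEq F] (hcard : Fintype.card F = p ^ f) :
    ∃ w : MulChar F (PadicAlgCl p), orderOf w = p ^ f - 1 ∧
      ∀ x y, ‖w (x + y) - w x - w y‖ < 1 := by
  have hp : ‖((p : ℕ) : PadicAlgCl p)‖ < 1 := by
    have h := PadicAlgCl.norm_extends p ((p : ℕ) : ℚ_[p])
    rw [map_natCast] at h
    rw [h]
    exact Padic.norm_p_lt_one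
  exact exists_teich_gen p f hp hf hcard

end H93S
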